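import Pool.Agent.G4.FewX

/-!
# Graphs of large girth with maximum degree four, and with few vertices of degree five on every
path, are 3-colourable
-/

set_option autoImplicit false

namespace Pool.Agent.Results.MP_86351e_co.FewDegreeFive

/-- There are natural numbers `g` and `d` such that for all `k` a finite graph `G` of girth at
least `g + (k + 1) d` (or without cycles) is 3-colourable if there is a set `Y` of vertices such
that every vertex outside `Y` has at most four neighbours outside `Y` and every path with exactly
`(k + 1) d` vertices contains at most `k` vertices of `Y`. -/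
theorem result :
    ∃ g d : ℕ, ∀ (k : ℕ) (V : Type) [Finite V] (G : SimpleGraph V) (Y : Set V),
      ((g + (k + 1) * d : ℕ) : ℕ∞) ≤ G.egirth →
      (∀ v, v ∉ Y → {w | G.Adj v w ∧ w ∉ Y}.ncard ≤ 4) →
      (∀ (u v : V) (p : G.Walk u v), p.IsPath → p.length + 1 = (k + 1) * d →
        {x | x ∈ p.support ∧ x ∈ Y}.ncard ≤ k) →
      G.Colorable 3 :=
  Pool.Agent.G4.few_high

end Pool.Agent.Results.MP_86351e_co.FewDegreeFive
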