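import Pool.Agent.P3C.Main

/-!
# Graphs of bounded degree and large girth whose vertices of degree at least four are, outside an
independent set, locally few: they are 3-colourable
-/

set_option autoImplicit false

namespace Pool.Agent.Results.MP_86351e_co.SparseHighVertices

/-- Let `D, k, N` be natural numbers with `N ≥ 16 D ^ 3 (k (D + 1) + 2) + 6`, let `G` be a finite
graph of maximum degree at most `D` and girth at least `k (D N + 1) + N + 3` (or without cycles),
and let `X` be an independent set of `G` such that for every vertex `u` at most `k` vertices `v`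
at distance at most `k (N + 1)` from `u` lie outside `X`, have degree at least 4 and have at least
two neighbours outside `X`. Then `G` is 3-colourable. -/
theorem result :
    ∀ (D k N : ℕ), 16 * D ^ 3 * (k * (D + 1) + 2) + 6 ≤ N →
      ∀ (V : Type) [Finite V] (G : SimpleGraph V) (X : Set V),
        (∀ v : V, (G.neighborSet v).ncard ≤ D) →
        ((k * (D * N + 1) + N + 3 : ℕ) : ℕ∞) ≤ G.egirth →
        (∀ u ∈ X, ∀ v ∈ X, ¬ G.Adj u v) →
        (∀ u : V, {v : V | v ∉ X ∧ 4 ≤ (G.neighborSet v).ncard ∧
            2 ≤ {z : V | G.Adj v z ∧ z ∉ X}.ncard ∧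
            ∃ p : G.Walk u v, p.length ≤ k * (N + 1)}.ncard ≤ k) →
        G.Colorable 3 :=
  fun D k N hN _ _ G X hD hg hX hB => Pool.Agent.P3C.three_colourable D k N hN G hD hg X hX hB

end Pool.Agent.Results.MP_86351e_co.SparseHighVertices
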